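import Pool.Agent.Q197.FM.Win4

/-!
# MP_5046ca_nt: the answer for almost primes and for random primes is no

`ρ(y)` is the largest number of primes in infinitely many intervals `(x, x + y]`, and the question is
whether `π(y) - ρ(y)` tends to `+∞`. Let `ρ*(y)` be the largest number of elements of an admissible
subset of `[0, y)`.

* Parts 1 to 3 (unconditional). If `ρ` is formed with the numbers `n` all of whose prime factors are
  larger than `n ^ δ` (so that `n` has fewer than `1 / δ` prime factors), then it has the value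
  `ρ*(y)` for all small `δ`, and `π - ρ` is at most `- α y log log log y / log² y` for all large `y`,
  for every `α < 1 / 2`. There are at least `X ^ (1 - ε)` windows with `ρ*(y)` such numbers, one of
  them a prime, with `x ≤ X`.
* Part 4. If `ρ` is formed with a random set `A` of natural numbers, for which the events `n ∈ A` are
  independent, and of probability at least `n ^ (-ε)` for all large `n` without prime factors
  `≤ z(n) = n ^ o(1)`, then almost surely `ρ(y) ≥ ρ*(y)` for all `y ≥ 3` (with many windows), and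
  `π(y) - ρ(y)` tends to `-∞`. If `A` has only finitely many multiples of every prime, then
  `ρ(y) = ρ*(y)`.
-/

set_option autoImplicit false

namespace Pool.Agent.Q197.SP.R504

open Finset Filter MeasureTheory ProbabilityTheory

/-- The set `S` avoids a residue class modulo every prime `q`. -/
def Adm (S : Finset ℕ) : Prop := ∀ q : ℕ, q.Prime → ∃ a : ℕ, ∀ s ∈ S, ¬ q ∣ a + s

open Classical in
/-- The largest number of elements of an admissible subset of `[0, y)`. -/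
noncomputable def rhoStar (y : ℕ) : ℕ := ((range y).powerset.filter Adm).sup Finset.card

/-- The largest number of elements of `B` in infinitely many intervals `(x, x + y]`. -/
noncomputable def rho (B : Set ℕ) (y : ℕ) : ℕ := limsup (fun x : ℕ => (B ∩ Set.Ioc x (x + y)).ncard) atTop

/-- The numbers `n` all of whose prime factors are larger than `n ^ δ`. -/
def Rough (δ : ℝ) : Set ℕ := {n | ∀ q : ℕ, q.Prime → q ∣ n → (n : ℝ) ^ δ < q}

/-- The gain in the theorem on admissible sets. -/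
noncomputable def gain (y : ℕ) : ℝ := (y : ℝ) * Real.log (Real.log (Real.log y)) / Real.log y ^ 2

theorem all_parts :
    (∀ y : ℕ, 3 ≤ y → ∃ δ₀ : ℝ, 0 < δ₀ ∧ ∀ δ : ℝ, 0 < δ → δ ≤ δ₀ → rho (Rough δ) y = rhoStar y) ∧
    (∀ α : ℝ, α < 1 / 2 → ∃ y₀ : ℕ, ∀ y : ℕ, y₀ ≤ y → ∃ δ₀ : ℝ, 0 < δ₀ ∧ ∀ δ : ℝ, 0 < δ → δ ≤ δ₀ →
      (Nat.primeCounting y : ℝ) - rho (Rough δ) y ≤ -(α * gain y)) ∧
    (∀ (y : ℕ) (ε : ℝ), 3 ≤ y → 0 < ε → ∃ δ₀ : ℝ, 0 < δ₀ ∧ ∀ δ : ℝ, 0 < δ → δ ≤ δ₀ →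
      ∃ X₀ : ℕ, ∀ X : ℕ, X₀ ≤ X → (X : ℝ) ^ (1 - ε) ≤
        ({x : ℕ | x ≤ X ∧ rhoStar y ≤ (Rough δ ∩ Set.Ioc x (x + y)).ncard ∧
          ∃ p, p.Prime ∧ x < p ∧ p ≤ x + y} : Set ℕ).ncard) ∧
    (∀ (Ω : Type) [MeasurableSpace Ω] (μ : Measure Ω) [IsProbabilityMeasure μ] (A : Ω → Set ℕ) (z : ℕ → ℝ),
      (∀ n : ℕ, MeasurableSet {ω | n ∈ A ω}) →
      iIndepSet (fun n : ℕ => {ω | n ∈ A ω}) μ →
      (∀ ε : ℝ, 0 < ε → ∀ᶠ n : ℕ in atTop, z n ≤ (n : ℝ) ^ ε) →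
      (∀ ε : ℝ, 0 < ε → ∀ᶠ n : ℕ in atTop, (∀ q : ℕ, q.Prime → q ∣ n → z n < q) →
        (n : ℝ) ^ (-ε) ≤ μ.real {ω | n ∈ A ω}) →
      (∀ᵐ ω ∂μ,
        (∀ y : ℕ, 3 ≤ y → rhoStar y ≤ rho (A ω) y ∧ ∀ ε : ℝ, 0 < ε → ∀ᶠ X : ℕ in atTop, (X : ℝ) ^ (1 - ε) ≤
          ({x : ℕ | x ≤ X ∧ rhoStar y ≤ (A ω ∩ Set.Ioc x (x + y)).ncard} : Set ℕ).ncard) ∧
        (∀ α : ℝ, α < 1 / 2 → ∀ᶠ y : ℕ in atTop, (Nat.primeCounting y : ℝ) - rho (A ω) y ≤ -(α * gain y)) ∧
        Tendsto (fun y : ℕ => (Nat.primeCounting y : ℤ) - rho (A ω) y) atTop atBot) ∧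
      ((∀ q : ℕ, q.Prime → ∀ᵐ ω ∂μ, {n | n ∈ A ω ∧ q ∣ n}.Finite) →
        ∀ᵐ ω ∂μ, ∀ y : ℕ, 3 ≤ y → rho (A ω) y = rhoStar y)) := by
  have hR : ∀ y, rhoStar y = Pool.Agent.Y879.PR.Rh y := fun y => rfl
  refine ⟨fun y hy => Pool.Agent.Q197.FM.rho_rough hy, fun α hα => ?_, fun y ε hy hε => ?_,
    fun Ω _ μ _ A z hA1 hA2 hz hP => ⟨?_, fun hfin => ?_⟩⟩
  · obtain ⟨y0, hy0⟩ := Pool.Agent.Y879.PR.rh_low hα
    refine ⟨y0 + 3, fun y hy => ?_⟩
    obtain ⟨δ₀, hδ₀, h⟩ := Pool.Agent.Q197.FM.rho_rough (y := y) (by omega)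
    refine ⟨δ₀, hδ₀, fun δ h1 h2 => ?_⟩
    have h3 : rho (Rough δ) y = Pool.Agent.Y879.PR.Rh y := h δ h1 h2
    have h4 := hy0 y (by omega)
    rw [h3]
    unfold gain
    linarith
  · obtain ⟨δ₀, hδ₀, h⟩ := Pool.Agent.Q197.FM.rough_lower hy ε hε
    refine ⟨δ₀, hδ₀, fun δ _ h2 => ?_⟩
    obtain ⟨X₀, hX⟩ := eventually_atTop.1 (h δ h2)
    exact ⟨X₀, hX⟩
  · filter_upwards [Pool.Agent.Q197.FM.random_windows (μ := μ) (A := A) ⟨hA1, hA2⟩ hz hP] with ω h
    refine ⟨h, fun α hα => ?_, ?_⟩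
    · obtain ⟨y0, hy0⟩ := Pool.Agent.Y879.PR.rh_low hα
      filter_upwards [eventually_ge_atTop (y0 + 3)] with y hy
      have h1 := (h y (by omega)).1
      have h2 := hy0 y (by omega)
      have h3 : (Pool.Agent.Y879.PR.Rh y : ℝ) ≤ rho (A ω) y := by exact_mod_cast h1
      unfold gain
      linarith
    · refine Pool.Agent.Q197.FM.gap_tendsto ?_
      filter_upwards [eventually_ge_atTop 3] with y hy
      exact (h y hy).1
  · have h1 : ∀ᵐ ω ∂μ, ∀ q : ℕ, q.Prime → {n | n ∈ A ω ∧ q ∣ n}.Finite := by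
      rw [ae_all_iff]
      intro q
      by_cases hq : q.Prime
      · filter_upwards [hfin q hq] with ω h _
        exact h
      · exact ae_of_all _ (fun ω h => absurd h hq)
    filter_upwards [h1, Pool.Agent.Q197.FM.random_windows (μ := μ) (A := A) ⟨hA1, hA2⟩ hz hP] with ω h2 h y hy
    refine le_antisymm (Pool.Agent.Q197.FM.rho_le (Pool.Agent.Q197.FM.window_le ?_)) (h y hy).1
    have h3 : ∀ q ∈ range (y + 1), ∀ᶠ n : ℕ in atTop, n ∈ A ω → q.Prime → ¬ q ∣ n := by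
      intro q _
      by_cases hq : q.Prime
      · obtain ⟨M, hM⟩ := (h2 q hq).bddAbove
        filter_upwards [eventually_gt_atTop M] with n hn hnA _ hqn
        have := hM ⟨hnA, hqn⟩
        omega
      · exact Eventually.of_forall (fun n _ h => absurd h hq)
    have h4 := (eventually_all_finset _).2 h3
    filter_upwards [h4] with n hn hnA q hq hqy
    exact hn q (mem_range.2 (by omega)) hnA hq

end Pool.Agent.Q197.SP.R504
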