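import Pool.Agent.Q197.CI.C5d7

/-!
# Goldbach's problem with a prime-indexed summand in Cramér's random model

`A` is Cramér's random model of the primes: the events `n ∈ A`, `n ≥ 3`, are independent with the probabilities
`1 / log n`; `el S m` is the `m`-th element `≥ 3` of `S`, the model of the `m`-th prime. The numbers
`(el A)^[a + 1] m`, `m ≥ 1`, are the elements of order `a`: all elements for `a = 0`, the elements with an index in `A`
for `a = 1` (the question), and so on. For every order `a` we determine, almost surely, the upper limit of the least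
`x` of order `a` with `2 n - x ∈ A`, the exponents of the numbers of the exceptional `n`, the distribution of the
typical values, and the number of all `x < n` of order `a` with `2 n - x ∈ A`, for every large `n`.
-/

set_option autoImplicit false

namespace Pool.Agent.Q197.SP.R5d7

open MeasureTheory Filter Pool.Agent.Q120.MF Pool.Agent.Q197.CI
open scoped Topology

/-- `x` is an element of order `a` and `2 n - x` is an element. -/
def Sol (a : ℕ) (S : Set ℕ) (n x : ℕ) : Prop := (∃ m, 1 ≤ m ∧ (el S)^[a + 1] m = x) ∧ 2 * n - x ∈ S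

theorem all_parts :
    (∃ (Ω : Type) (_ : MeasurableSpace Ω) (μ : Measure Ω) (A : Ω → Set ℕ), IsProbabilityMeasure μ ∧ IsCramer μ A) ∧
    ∀ (Ω : Type) [MeasurableSpace Ω] (μ : Measure Ω) [IsProbabilityMeasure μ] (A : Ω → Set ℕ), IsCramer μ A →
      ∀ a : ℕ,
      -- the question (`a = 1`), for all large `n`
      (∀ᵐ ω ∂μ, (A ω).Infinite ∧ ∀ᶠ n : ℕ in atTop, ∃ x : ℕ, x < n ∧ Sol a (A ω) n x) ∧
      -- the least `x`
      (∀ c : ℝ, 2 ^ (a + 1) < c → ∀ᵐ ω ∂μ, ∀ᶠ n : ℕ in atTop,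
        ∃ x : ℕ, (x : ℝ) ≤ c * (Real.log n ^ 2 * Real.log (Real.log n) ^ (a + 1)) ∧ Sol a (A ω) n x) ∧
      (∀ c : ℝ, 0 < c → c < 2 ^ (a + 1) → ∀ᵐ ω ∂μ, Tendsto (fun N : ℕ =>
        Real.log (cntP (fun n => NoSol (Sol a (A ω)) n (c * (Real.log n ^ 2 * Real.log (Real.log n) ^ (a + 1)))) N) /
          Real.log N) atTop (𝓝 (1 - c / 2 ^ (a + 1)))) ∧
      -- typical values
      (∀ t : ℝ, 0 < t → ∀ᵐ ω ∂μ, Tendsto (fun N : ℕ =>
        cntP (fun n => NoSol (Sol a (A ω)) n (t * (Real.log n * Real.log (Real.log n) ^ (a + 1)))) N / N) atTop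
          (𝓝 (Real.exp (-t)))) ∧
      -- the number of the solutions
      ∀ᵐ ω ∂μ, Tendsto (fun n : ℕ => ({x : ℕ | x < n ∧ Sol a (A ω) n x}.ncard : ℝ) * Real.log n ^ (a + 2) / n) atTop
        (𝓝 1) := by
  refine ⟨⟨_, _, cramerMeasure, cramerSet, inferInstance, isCramer⟩, ?_⟩
  intro Ω _ μ _ A hA a
  have hSol : ∀ᵐ ω ∂μ, ∀ M : ℕ, ∀ᶠ n : ℕ in atTop, ∀ j : ℕ, 1 ≤ j → (j : ℝ) ≤ Real.log n ^ M →
      (Sol a (A ω) n j ↔ (IsPr a (A ω) j ∧ ¬ FlF P1 n j (A ω))) := by
    filter_upwards [ae_infinite hA] with ω hinf M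
    filter_upwards with n j _ _
    unfold Sol FlF P1
    rw [isPr_iff hinf a j]
    simp only [Finset.mem_singleton, forall_eq, not_not]
  obtain ⟨h1, h2, h3⟩ := (rowPr a).final hA (a + 1) (lawPr hA a)
    (Eventually.of_forall (fun _ => Eventually.of_forall (fun _ => trivial))) (Sol a) hSol
  have e1 : (1 : ℝ) * (((1 : ℕ) : ℝ) + 1) ^ (a + 1) = 2 ^ (a + 1) := by norm_num
  have e2 : (1 : ℝ) * ((1 : ℕ) : ℝ) ^ (a + 1) = 1 := by norm_num
  have hc4 : ∀ c : ℝ, 2 ^ (a + 1) < c → ∀ᵐ ω ∂μ, ∀ᶠ n : ℕ in atTop,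
      ∃ x : ℕ, (x : ℝ) ≤ c * (Real.log n ^ 2 * Real.log (Real.log n) ^ (a + 1)) ∧ Sol a (A ω) n x := by
    intro c hc
    filter_upwards [h1 c (by rw [e1]; exact hc)] with ω h4
    filter_upwards [h4] with n h5
    unfold NoSol at h5
    push Not at h5
    obtain ⟨k, _, k2, k3⟩ := h5
    exact ⟨k, k2, k3⟩
  refine ⟨?_, hc4, fun c hc0 hc => ?_, fun t ht => ?_, ?_⟩
  · filter_upwards [ae_infinite hA, hc4 (2 ^ (a + 1) + 1) (by linarith)] with ω hinf h4
    refine ⟨hinf, ?_⟩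
    filter_upwards [h4, scale_le (2 * (2 ^ (a + 1) + 1)) 2 (a + 1), eventually_ge_atTop 1] with n h5 h6 h7
    obtain ⟨k, k2, k3⟩ := h5
    refine ⟨k, ?_, k3⟩
    have hn0 : (0 : ℝ) < n := by exact_mod_cast h7
    have : (k : ℝ) < n := by nlinarith
    exact_mod_cast this
  · have h4 := h2 c hc0 (by rw [e1]; exact hc)
    rw [e1] at h4
    exact h4
  · have h4 := h3 t ht
    rw [e2] at h4
    simp only [pow_one, div_one] at h4
    exact h4
  · filter_upwards [totalPr hA a, ae_infinite hA] with ω h4 hinf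
    refine h4.congr (fun n => ?_)
    congr 3
    congr 1
    ext x
    simp only [Set.mem_ofPred_eq]
    unfold Sol
    rw [isPr_iff hinf a x]

end Pool.Agent.Q197.SP.R5d7
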