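import Pool.Agent.Q197.WN.Half

/-!
# Two elements between consecutive odd squares: the exact entropy budget and the exact price of the exceptions, for all random sets
-/

set_option autoImplicit false

namespace Pool.Agent.Q197.SP.R5f6

open Finset Filter Pool.Agent.Q197.WN Pool.Agent.Q120.CL Pool.Agent.Q120.HL Pool.Agent.Q120.ET
open scoped Topology

/-- The integers strictly between two consecutive odd squares. -/
def W (n : ℕ) : Finset ℕ := Ioo ((2 * n - 1) ^ 2) ((2 * n + 1) ^ 2)

open Classical in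
/-- The number of the elements of `S` strictly between `a` and `b`. -/
noncomputable def number (a b : ℕ) (S : Set ℕ) : ℕ := ((Ioo a b).filter (fun y => y ∈ S)).card

/-- The smaller of the two numbers of elements before and after the even square. -/
noncomputable def Q (n : ℕ) (S : Set ℕ) : ℕ := min (number ((2 * n - 1) ^ 2) ((2 * n) ^ 2) S) (number ((2 * n) ^ 2) ((2 * n + 1) ^ 2) S)

/-- The expected number of elements in each half. -/
noncomputable def E (n : ℕ) : ℝ := 4 * n / (2 * Real.log n)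

/-- The entropy budget and the price of the exceptions. -/
theorem all_parts (z : ℕ → ℕ) (hs : ∀ η : ℝ, 0 < η → ∀ᶠ k : ℕ in atTop, (z k : ℝ) ≤ η * k) :
    Phase (pr z) W Q E (fun k M => (M : ℝ) * (2 ^ k / k)) ∧ Low (pr z) W Q E := by
  have hcast : ∀ n : ℕ, 1 ≤ n → (((2 * n - 1) ^ 2 + 1 : ℕ) : ℝ) = (2 * (n : ℝ) - 1) ^ 2 + 1 := by
    intro n hn
    have h1 : ((2 * n - 1 : ℕ) : ℝ) = 2 * (n : ℝ) - 1 := by
      rw [Nat.cast_sub (by omega)]
      push_cast
      ring
    push_cast
    rw [h1]
  have hl : Wins (fun n => (2 * n - 1) ^ 2 + 1) (fun n => (2 * n) ^ 2) (1 / 4) := by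
    refine Wins.of ?_ ?_ ?_ ?_
    · filter_upwards [eventually_ge_atTop 1] with n hn
      obtain ⟨m, rfl⟩ := Nat.exists_eq_add_of_le hn
      have e : 2 * (1 + m) - 1 = 2 * m + 1 := by omega
      rw [e]
      nlinarith
    · filter_upwards [eventually_ge_atTop 2] with n hn
      obtain ⟨m, rfl⟩ := Nat.exists_eq_add_of_le hn
      have e : 2 * (2 + m) - 1 = 2 * m + 3 := by omega
      rw [e]
      have h1 : (2 * (2 + m)) ^ 2 = (2 * m + 3) ^ 2 + 1 + (4 * m + 6) := by ring
      rw [h1, Nat.add_sub_cancel_left]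
      refine ⟨by omega, ?_⟩
      have h2 : (4 * m + 6) ^ 2 ≤ (4 * m + 6) ^ 4 := Nat.pow_le_pow_right (by omega) (by norm_num)
      refine le_trans ?_ h2
      nlinarith
    · filter_upwards [eventually_ge_atTop 20] with n hn
      obtain ⟨m, rfl⟩ := Nat.exists_eq_add_of_le hn
      have e : 2 * (20 + m) - 1 = 2 * m + 39 := by omega
      rw [e]
      nlinarith
    · intro i j hij
      have h1 : 2 * i ≤ 2 * j - 1 := by omega
      have h2 := Nat.pow_le_pow_left h1 2
      show (2 * i) ^ 2 ≤ (2 * j - 1) ^ 2 + 1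
      omega
  have hr : Wins (fun n => (2 * n) ^ 2 + 1) (fun n => (2 * n + 1) ^ 2) (1 / 4) := by
    refine Wins.of ?_ ?_ ?_ ?_
    · filter_upwards with n
      nlinarith
    · filter_upwards [eventually_ge_atTop 2] with n hn
      have h1 : (2 * n + 1) ^ 2 = (2 * n) ^ 2 + 1 + 4 * n := by ring
      rw [h1, Nat.add_sub_cancel_left]
      refine ⟨by omega, ?_⟩
      have h2 : (4 * n) ^ 2 ≤ (4 * n) ^ 4 := Nat.pow_le_pow_right (by omega) (by norm_num)
      refine le_trans ?_ h2
      nlinarith
    · filter_upwards [eventually_ge_atTop 20] with n hn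
      nlinarith
    · intro i j hij
      have h1 : 2 * i + 1 ≤ 2 * j := by omega
      have h2 := Nat.pow_le_pow_left h1 2
      show (2 * i + 1) ^ 2 ≤ (2 * j) ^ 2 + 1
      omega
  have hEl : Asy E (wt (fun n => (2 * n - 1) ^ 2 + 1) (fun n => (2 * n) ^ 2) 1) 1 := by
    refine sq_asy hl (c := 1) (C := 4) (β := 4) one_pos (by norm_num) ?_ ?_ (fun n => rfl)
    · filter_upwards [eventually_ge_atTop 2] with n hn
      have hn' : (2 : ℝ) ≤ n := by exact_mod_cast hn
      rw [hcast n (by omega)]
      constructor <;> nlinarith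
    · refine lin_ratio (γ := -2) (by norm_num) ?_
      filter_upwards [eventually_ge_atTop 1] with n hn
      rw [hcast n hn]
      push_cast
      ring
  have hEr : Asy E (wt (fun n => (2 * n) ^ 2 + 1) (fun n => (2 * n + 1) ^ 2) 1) 1 := by
    refine sq_asy hr (c := 1) (C := 5) (β := 4) one_pos (by norm_num) ?_ ?_ (fun n => rfl)
    · filter_upwards [eventually_ge_atTop 2] with n hn
      have hn' : (2 : ℝ) ≤ n := by exact_mod_cast hn
      push_cast
      constructor <;> nlinarith
    · refine lin_ratio (γ := 0) (by norm_num) ?_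
      filter_upwards with n
      push_cast
      ring
  have h1 := half_elem hl hr (fun n => by omega) (fun n => ⟨Nat.pow_le_pow_left (by omega) 2,
      by have := Nat.pow_le_pow_left (show 2 * n - 1 ≤ 2 * n by omega) 2; omega⟩) (by
    intro i j hij
    rw [Finset.disjoint_left]
    intro x hx hx'
    rw [mem_Ico] at hx hx'
    rcases lt_or_gt_of_ne hij with h | h
    · have h2 := Nat.pow_le_pow_left (show 2 * i + 1 ≤ 2 * j - 1 by omega) 2
      omega
    · have h2 := Nat.pow_le_pow_left (show 2 * j + 1 ≤ 2 * i - 1 by omega) 2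
      omega) hs hEl hEr
  have e1 : ∀ a b : ℕ, Ico (a + 1) b = Ioo a b := by
    intro a b
    ext x
    rw [mem_Ico, mem_Ioo]
    omega
  have eW : (fun n : ℕ => Ico ((2 * n - 1) ^ 2 + 1) ((2 * n + 1) ^ 2)) = W := by
    funext n
    exact e1 _ _
  have eQ : (fun (n : ℕ) (S : Set ℕ) => min (els (Ico ((2 * n - 1) ^ 2 + 1) ((2 * n) ^ 2)) S)
      (els (Ico ((2 * n) ^ 2 + 1) ((2 * n + 1) ^ 2)) S)) = Q := by
    funext n S
    unfold els Q number
    rw [e1, e1]
  rw [eW, eQ] at h1
  exact ⟨sq_phase (β := 4) (by norm_num) (fun n => rfl) h1.1, h1.2⟩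

end Pool.Agent.Q197.SP.R5f6
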