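import Pool.Agent.Q197.WN.BroH

/-!
# Primes between the squares of consecutive primes: the exact entropy price of the failures, for all random sets
-/

set_option autoImplicit false

namespace Pool.Agent.Q197.SP.R739

open Finset MeasureTheory Filter Pool.Agent.Q197.WN Pool.Agent.Q120.CL Pool.Agent.Q120.ET Pool.Agent.Q120.TT
open scoped Topology

open Classical in
/-- The number of the elements of `S` strictly between `a ^ 2` and `b ^ 2`. -/
noncomputable def num (a b : ℕ) (S : Set ℕ) : ℕ := ((Ioo (a ^ 2) (b ^ 2)).filter (fun x => x ∈ S)).card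

/-- `a ∈ S`, and `b` is the next element of `S`. -/
def Next (S : Set ℕ) (a b : ℕ) : Prop := a ∈ S ∧ b ∈ S ∧ a < b ∧ ∀ x, a < x → x < b → x ∉ S

open Classical in
/-- The number of the `a ∈ S`, `2 ^ (k + 1) ≤ a < 2 ^ (k + 2)`, with at most `j` elements of `S` between the squares of `a` and of the
next element. -/
noncomputable def bad (j k : ℕ) (S : Set ℕ) : ℕ :=
  ((Ico (2 ^ (k + 1)) (2 ^ (k + 2))).filter (fun a => ∃ b, Next S a b ∧ num a b S ≤ j)).card

/-- The integers, other than odd squares, between the squares of the first odd integers after `2 ^ (k + 1)` and after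
`2 ^ (k + 2)`. -/
def B (k : ℕ) : Finset ℕ := (Ico (2 ^ k) (2 ^ (k + 1))).biUnion (fun n => Ioo ((2 * n + 1) ^ 2) ((2 * n + 3) ^ 2))

/-- The price of one failure. -/
noncomputable def u (k : ℕ) : ℝ := 4 * 2 ^ k / (k * Real.log 2)

/-- Asymptotically `(b ^ 2 - a ^ 2) / (2 log a)` elements between the squares of consecutive elements `a < b`. -/
def Asymp (S : Set ℕ) : Prop :=
  ∀ ε : ℝ, 0 < ε → ∀ᶠ a : ℕ in atTop, ∀ b, Next S a b →
    |(num a b S : ℝ) - ((b : ℝ) ^ 2 - (a : ℝ) ^ 2) / (2 * Real.log a)| ≤ ε * (((b : ℝ) ^ 2 - (a : ℝ) ^ 2) / (2 * Real.log a))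

theorem bad_eq (j k : ℕ) (S : Set ℕ) : bad j k S = fails j k S := by
  classical
  unfold bad fails
  refine congrArg card (filter_congr (fun a _ => ?_))
  unfold Next Fail num
  constructor
  · rintro ⟨b, ⟨h1, h2, h3, h4⟩, h5⟩
    exact ⟨h1, b, h2, h3, h4, h5⟩
  · rintro ⟨h1, b, h2, h3, h4, h5⟩
    exact ⟨b, ⟨h1, h2, h3, h4⟩, h5⟩

theorem asymp_iff (S : Set ℕ) : Asymp S ↔ Law S := by
  unfold Asymp Law
  refine forall₂_congr (fun ε _ => ?_)
  constructor
  · intro h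
    filter_upwards [h] with a ha h1 b h2 h3 h4
    exact ha b ⟨h1, h2, h3, h4⟩
  · intro h
    filter_upwards [h] with a ha b hb
    exact ha hb.1 b hb.2.1 hb.2.2.1 hb.2.2.2

theorem B_eq (k : ℕ) : B k = un bW k := by
  unfold B un block
  refine biUnion_congr rfl (fun n _ => ?_)
  ext x
  unfold bW bu bv
  rw [mem_Ioo, mem_Ico]
  omega

theorem next_prime {n : ℕ} : Next {p | p.Prime} (Nat.nth Nat.Prime n) (Nat.nth Nat.Prime (n + 1)) := by
  refine ⟨Nat.prime_nth_prime n, Nat.prime_nth_prime (n + 1), Nat.nth_strictMono Nat.infinite_setOfPred_prime (Nat.lt_succ_self n), ?_⟩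
  intro x h1 h2 hx
  have hx' : x.Prime := hx
  have h3 := Nat.nth_count hx'
  rw [← h3] at h1 h2
  have h4 := (Nat.nth_lt_nth Nat.infinite_setOfPred_prime).1 h1
  have h5 := (Nat.nth_lt_nth Nat.infinite_setOfPred_prime).1 h2
  omega

theorem brocard_iff : (∀ n : ℕ, 1 ≤ n → 4 ≤ ((Ioo ((Nat.nth Nat.Prime n) ^ 2) ((Nat.nth Nat.Prime (n + 1)) ^ 2)).filter
    Nat.Prime).card) ↔ ∀ k : ℕ, 1 ≤ k → bad 3 k {p | p.Prime} = 0 := by
  classical
  have hnum : ∀ a b, num a b {p | p.Prime} = ((Ioo (a ^ 2) (b ^ 2)).filter Nat.Prime).card := by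
    intro a b
    unfold num
    congr 1
    ext x
    simp only [mem_filter, Set.mem_ofPred_eq]
  constructor
  · intro h k hk
    unfold bad
    rw [card_eq_zero, filter_eq_empty_iff]
    rintro a ha ⟨b, ⟨h1, h2, h3, h4⟩, h5⟩
    rw [mem_Ico] at ha
    have ha' : a.Prime := h1
    have hb' : b.Prime := h2
    obtain ⟨n, hn⟩ : ∃ n, n = Nat.count Nat.Prime a := ⟨_, rfl⟩
    have e1 : Nat.nth Nat.Prime n = a := by rw [hn]; exact Nat.nth_count ha'
    have h6 : 2 ^ (1 + 1) ≤ 2 ^ (k + 1) := Nat.pow_le_pow_right (by norm_num) (by omega)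
    have hn1 : 1 ≤ n := by
      by_contra hcon
      have : n = 0 := by omega
      rw [this, Nat.nth_prime_zero_eq_two] at e1
      omega
    obtain ⟨c1, c2, c3, c4⟩ := next_prime (n := n)
    rw [e1] at c3 c4
    have e2 : Nat.nth Nat.Prime (n + 1) = b := by
      rcases lt_trichotomy (Nat.nth Nat.Prime (n + 1)) b with h7 | h7 | h7
      · exact absurd c2 (h4 _ c3 h7)
      · exact h7
      · exact absurd h2 (c4 _ h3 h7)
    have h7 := h n hn1
    rw [e1, e2, ← hnum] at h7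
    omega
  · intro h n hn
    by_contra hcon
    rw [← hnum] at hcon
    obtain ⟨a, ha⟩ : ∃ a, a = Nat.nth Nat.Prime n := ⟨_, rfl⟩
    obtain ⟨b, hb⟩ : ∃ b, b = Nat.nth Nat.Prime (n + 1) := ⟨_, rfl⟩
    have hnext := next_prime (n := n)
    rw [← ha, ← hb] at hcon hnext
    have ha3 : 3 ≤ a := by
      rw [ha, ← Nat.nth_prime_one_eq_three]
      exact Nat.nth_monotone Nat.infinite_setOfPred_prime hn
    rcases Nat.lt_or_ge a 4 with h4 | h4
    · have ha4 : a = 3 := by omega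
      have hb5 : 5 ≤ b := by
        have hb' : b.Prime := hnext.2.1
        have h5 := hnext.2.2.1
        by_contra hcon2
        have : b = 4 := by omega
        rw [this] at hb'
        norm_num at hb'
      apply hcon
      rw [hnum]
      have h6 : ((Ioo (3 ^ 2) (5 ^ 2)).filter Nat.Prime) ⊆ ((Ioo (a ^ 2) (b ^ 2)).filter Nat.Prime) := by
        apply filter_subset_filter
        rw [ha4]
        exact Ioo_subset_Ioo_right (Nat.pow_le_pow_left hb5 2)
      refine le_trans ?_ (card_le_card h6)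
      decide
    · obtain ⟨k, hk⟩ : ∃ k, Nat.log 2 a = k + 1 := by
        have : 2 ≤ Nat.log 2 a := (Nat.le_log_iff_pow_le (by norm_num) (by omega)).2 h4
        exact ⟨Nat.log 2 a - 1, by omega⟩
      have hk1 : 1 ≤ k := by
        have : 2 ≤ Nat.log 2 a := (Nat.le_log_iff_pow_le (by norm_num) (by omega)).2 h4
        omega
      have h5 := h k hk1
      unfold bad at h5
      rw [card_eq_zero, filter_eq_empty_iff] at h5
      refine h5 (x := a) ?_ ⟨b, hnext, by omega⟩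
      rw [mem_Ico, ← hk]
      constructor
      · exact Nat.pow_log_le_self 2 (by omega)
      · have h6 := Nat.lt_pow_succ_log_self (b := 2) (by norm_num) a
        have h7 : k + 2 = (Nat.log 2 a).succ := by omega
        rw [h7]
        exact h6

/-- The price of the failures and the entropy budget. -/
theorem all_parts :
    ((∀ n : ℕ, 1 ≤ n → 4 ≤ ((Ioo ((Nat.nth Nat.Prime n) ^ 2) ((Nat.nth Nat.Prime (n + 1)) ^ 2)).filter Nat.Prime).card) ↔
      ∀ k : ℕ, 1 ≤ k → bad 3 k {p | p.Prime} = 0) ∧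
    ∀ z : ℕ → ℕ, Tendsto z atTop atTop → (∀ η : ℝ, 0 < η → ∀ᶠ k : ℕ in atTop, (z k : ℝ) ≤ η * k) →
    (∀ ε : ℝ, 0 < ε → ∀ (j : ℕ) (Ω : Type) [MeasurableSpace Ω] (μ : Measure Ω) [IsProbabilityMeasure μ] (A : Ω → Set ℕ),
      IsRandomSet A → (∀ᵐ ω ∂μ, ∀ n ∈ A ω, 0 < pr z n) → ∀ᶠ k : ℕ in atTop, ∀ M : ℕ, 1 ≤ M → M ≤ 2 ^ k →
        (1 - ε) * (M * u k * μ.real {ω | M ≤ bad j k (A ω)}) ≤ 1 + relEnt (pr z) μ A (B k)) ∧
    (∀ ε : ℝ, 0 < ε → ∀ (M : ℕ → ℕ) (q : ℕ → ℝ), Tendsto (fun k : ℕ => (M k : ℝ) * (k : ℝ) ^ 2 / 2 ^ k) atTop (𝓝 0) →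
      (∀ k, 0 ≤ q k ∧ q k ≤ 1) →
      ∃ (Ω : Type) (_ : MeasurableSpace Ω) (μ : Measure Ω) (_ : IsProbabilityMeasure μ) (A : Ω → Set ℕ),
        Near (pr z) B (fun k => (1 + ε) * (q k * (M k * u k))) μ A ∧
        ∀ᶠ k : ℕ in atTop, (1 - ε) * q k ≤ μ.real {ω | M k ≤ bad 0 k (A ω)}) ∧
    (∀ (M : ℕ → ℕ) (d : ℕ → ℝ), (∀ k, 1 ≤ M k) → Tendsto (fun k : ℕ => (M k : ℝ) * (k : ℝ) ^ 2 / 2 ^ k) atTop (𝓝 0) →
      (∀ k, 0 ≤ d k) →
      (∀ j : ℕ, Summable (fun k : ℕ => d k * k / (2 ^ k * M k)) ↔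
        ∀ (Ω : Type) [MeasurableSpace Ω] (μ : Measure Ω) [IsProbabilityMeasure μ] (A : Ω → Set ℕ), Near (pr z) B d μ A →
          ∀ᵐ ω ∂μ, ∀ᶠ k : ℕ in atTop, bad j k (A ω) < M k) ∧
      (¬ Summable (fun k : ℕ => d k * k / (2 ^ k * M k)) →
        ∃ (Ω : Type) (_ : MeasurableSpace Ω) (μ : Measure Ω) (_ : IsProbabilityMeasure μ) (A : Ω → Set ℕ),
          Near (pr z) B d μ A ∧ ∀ᵐ ω ∂μ, ∃ᶠ k : ℕ in atTop, M k ≤ bad 0 k (A ω))) ∧
    (∀ d : ℕ → ℝ, (∀ k, 0 ≤ d k) → (Summable (fun k : ℕ => d k * k / 2 ^ k) ↔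
      ∀ (Ω : Type) [MeasurableSpace Ω] (μ : Measure Ω) [IsProbabilityMeasure μ] (A : Ω → Set ℕ), Near (pr z) B d μ A →
        ∀ᵐ ω ∂μ, Asymp (A ω))) := by
  refine ⟨brocard_iff, fun z hz hs => ?_⟩
  have eB : B = un bW := by funext k; exact B_eq k
  rw [eB]
  refine ⟨?_, ?_, ?_, ?_⟩
  · intro ε hε j Ω _ μ _ A hA hsu
    filter_upwards [bro_price hz hs hε j hA hsu] with k hk M hM hMk
    simp only [bad_eq]
    exact hk M hM hMk
  · intro ε hε M q hM hq
    obtain ⟨Ω, mΩ, μ, hμ, A, h1, h2, h3, h4, _⟩ := bro_down hz hs hε hM hq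
    refine ⟨Ω, mΩ, μ, hμ, A, ⟨h1, h2, ?_⟩, ?_⟩
    · filter_upwards [h3] with k hk
      refine hk.trans (le_of_eq ?_)
      show q k * ((1 + ε) * (M k * bp k)) = (1 + ε) * (q k * (M k * bp k))
      ring
    · simp only [bad_eq]
      exact h4
  · intro M d hM1 hM hd
    simp only [bad_eq]
    exact ⟨fun j => bro_budget hz hs hM1 hM hd j, fun hns => bro_often hz hs hM1 hM hd hns⟩
  · intro d hd
    simp only [asymp_iff]
    exact bro_law hz hs hd

end Pool.Agent.Q197.SP.R739
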