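import Pool.Agent.Q197.WN.Half

/-!
# The counts in Oppermann's intervals: the exact entropy budget and the exact price of every deviation, for all random sets
-/

set_option autoImplicit false

namespace Pool.Agent.Q197.SP.Ra8f

open Finset Filter Pool.Agent.Q197.WN Pool.Agent.Q120.CL Pool.Agent.Q120.HL Pool.Agent.Q120.ET
open scoped Topology

/-- The intervals of Oppermann in their order: `[n ^ 2 - n, n ^ 2)` for `j = 2 * n - 1` and `[n ^ 2, n ^ 2 + n)` for `j = 2 * n`. -/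
def W (j : ℕ) : Finset ℕ :=
  Ico (((j + 1) / 2) ^ 2 - (if j % 2 = 1 then (j + 1) / 2 else 0)) (((j + 1) / 2) ^ 2 + (if j % 2 = 1 then 0 else (j + 1) / 2))

open Classical in
/-- The number of the elements of `S` in the interval. -/
noncomputable def Q (j : ℕ) (S : Set ℕ) : ℕ := ((W j).filter (fun x => x ∈ S)).card

/-- The expected number of elements: `n / (2 log n)` for `j = 2 * n - 1` and `j = 2 * n`. -/
noncomputable def E (j : ℕ) : ℝ := (((j + 1) / 2 : ℕ) : ℝ) / (2 * Real.log (((j + 1) / 2 : ℕ) : ℝ))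

theorem W_eq (j : ℕ) : W j = Ico (j ^ 2 / 4) ((j + 1) ^ 2 / 4) := by
  unfold W
  rcases Nat.even_or_odd' j with ⟨n, h | h⟩
  · subst h
    have e1 : (2 * n + 1) / 2 = n := by omega
    have e2 : (2 * n) % 2 = 0 := by omega
    have e3 : (2 * n) ^ 2 / 4 = n ^ 2 := by
      have : (2 * n) ^ 2 = n ^ 2 * 4 := by ring
      rw [this, Nat.mul_div_cancel _ (by norm_num)]
    have e4 : (2 * n + 1) ^ 2 / 4 = n ^ 2 + n := by
      have : (2 * n + 1) ^ 2 = 1 + (n ^ 2 + n) * 4 := by ring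
      rw [this, Nat.add_mul_div_right _ _ (by norm_num)]
      omega
    rw [e1, e2, e3, e4]
    simp
  · subst h
    have e1 : (2 * n + 1 + 1) / 2 = n + 1 := by omega
    have e2 : (2 * n + 1) % 2 = 1 := by omega
    have e3 : (2 * n + 1) ^ 2 / 4 = n ^ 2 + n := by
      have : (2 * n + 1) ^ 2 = 1 + (n ^ 2 + n) * 4 := by ring
      rw [this, Nat.add_mul_div_right _ _ (by norm_num)]
      omega
    have e4 : (2 * n + 1 + 1) ^ 2 / 4 = (n + 1) ^ 2 := by
      have : (2 * n + 1 + 1) ^ 2 = (n + 1) ^ 2 * 4 := by ring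
      rw [this, Nat.mul_div_cancel _ (by norm_num)]
    rw [e1, e2, e3, e4, if_pos rfl, if_pos rfl, Nat.add_zero]
    have e5 : (n + 1) ^ 2 - (n + 1) = n ^ 2 + n := by
      have : (n + 1) ^ 2 = (n ^ 2 + n) + (n + 1) := by ring
      omega
    rw [e5, Nat.add_zero]

/-- The entropy budget and the price of the deviations. -/
theorem all_parts (z : ℕ → ℕ) (hs : ∀ η : ℝ, 0 < η → ∀ᶠ k : ℕ in atTop, (z k : ℝ) ≤ η * k) :
    Phase (pr z) W Q E (fun k M => (M : ℝ) * (2 ^ k / k)) ∧ Low (pr z) W Q E ∧ High (pr z) W Q E := by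
  have hdiv : ∀ j : ℕ, j ^ 2 / 4 * 4 ≤ j ^ 2 ∧ j ^ 2 < j ^ 2 / 4 * 4 + 4 := by
    intro j
    have := Nat.div_add_mod (j ^ 2) 4
    have := Nat.mod_lt (j ^ 2) (show 0 < 4 by norm_num)
    omega
  have hw : Wins (fun j => j ^ 2 / 4) (fun j => (j + 1) ^ 2 / 4) (1 / 4) := by
    refine Wins.of ?_ ?_ ?_ ?_
    · filter_upwards [eventually_ge_atTop 5] with n hn
      rw [Nat.le_div_iff_mul_le (by norm_num)]
      nlinarith
    · filter_upwards [eventually_ge_atTop 20] with n hn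
      have h1 := hdiv n
      have h2 := hdiv (n + 1)
      have h3 : n ≤ 4 * ((n + 1) ^ 2 / 4 - n ^ 2 / 4) := by
        have h4 : (n + 1) ^ 2 = n ^ 2 + 2 * n + 1 := by ring
        omega
      obtain ⟨d, hd⟩ : ∃ d, d = (n + 1) ^ 2 / 4 - n ^ 2 / 4 := ⟨_, rfl⟩
      rw [← hd] at h3 ⊢
      refine ⟨Nat.div_le_div_right (Nat.pow_le_pow_left (by omega) 2), ?_⟩
      have h5 : n ^ 2 ≤ 16 * d ^ 2 := by nlinarith
      have h6 : 5 ≤ d := by omega
      have h7 : 4 * d ^ 2 ≤ d ^ 4 := by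
        have : d ^ 4 = d ^ 2 * d ^ 2 := by ring
        rw [this]
        exact Nat.mul_le_mul_right _ (by nlinarith)
      omega
    · filter_upwards [eventually_ge_atTop 20] with n hn
      have h1 := hdiv n
      have h2 := hdiv (n + 1)
      have h4 : (n + 1) ^ 2 = n ^ 2 + 2 * n + 1 := by ring
      have h5 : 20 * n ≤ n ^ 2 := by nlinarith
      omega
    · intro i j hij
      exact Nat.div_le_div_right (Nat.pow_le_pow_left (by omega) 2)
  obtain ⟨g, hg⟩ : ∃ g : ℕ → ℕ, g = fun j => (j + 1) / 2 := ⟨_, rfl⟩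
  have hgb : ∀ j : ℕ, j ≤ 2 * g j ∧ 2 * g j ≤ j + 1 := by
    intro j
    rw [hg]
    show j ≤ 2 * ((j + 1) / 2) ∧ 2 * ((j + 1) / 2) ≤ j + 1
    omega
  have hlen : ∀ j : ℕ, (((j + 1) ^ 2 / 4 : ℕ) : ℝ) - ((j ^ 2 / 4 : ℕ) : ℝ) = g j := by
    intro j
    have h1 : (j + 1) ^ 2 / 4 = j ^ 2 / 4 + g j := by
      rw [hg]
      rcases Nat.even_or_odd' j with ⟨n, h | h⟩
      · subst h
        have e3 : (2 * n) ^ 2 = n ^ 2 * 4 := by ring
        have e4 : (2 * n + 1) ^ 2 = 1 + (n ^ 2 + n) * 4 := by ring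
        have e1 : (2 * n + 1) / 2 = n := by omega
        show (2 * n + 1) ^ 2 / 4 = (2 * n) ^ 2 / 4 + (2 * n + 1) / 2
        rw [e3, e4, e1]
        omega
      · subst h
        have e3 : (2 * n + 1) ^ 2 = 1 + (n ^ 2 + n) * 4 := by ring
        have e4 : (2 * n + 1 + 1) ^ 2 = (n ^ 2 + 2 * n + 1) * 4 := by ring
        have e1 : (2 * n + 1 + 1) / 2 = n + 1 := by omega
        show (2 * n + 1 + 1) ^ 2 / 4 = (2 * n + 1) ^ 2 / 4 + (2 * n + 1 + 1) / 2
        rw [e3, e4, e1]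
        omega
    rw [h1]
    push_cast
    ring
  have hlog1 : Tendsto (fun j : ℕ => Real.log (j ^ 2 / 4 : ℕ) / (((2 : ℕ) : ℝ) * Real.log j)) atTop (𝓝 1) := by
    refine log_ratio (u := fun j => j ^ 2 / 4) (by norm_num) (c := 1 / 8) (C := 1) (by norm_num) one_pos ?_
    filter_upwards [eventually_ge_atTop 4] with j hj
    have h1 := hdiv j
    constructor
    · have h2 : j ^ 2 ≤ 8 * (j ^ 2 / 4) := by
        have : 16 ≤ j ^ 2 := by nlinarith
        omega
      have h3 : (j : ℝ) ^ 2 ≤ 8 * ((j ^ 2 / 4 : ℕ) : ℝ) := by exact_mod_cast h2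
      linarith
    · have h2 : j ^ 2 / 4 ≤ j ^ 2 := Nat.div_le_self _ _
      have h3 : ((j ^ 2 / 4 : ℕ) : ℝ) ≤ (j : ℝ) ^ 2 := by exact_mod_cast h2
      linarith
  have hlog2 : Tendsto (fun j : ℕ => Real.log (g j) / (((1 : ℕ) : ℝ) * Real.log j)) atTop (𝓝 1) := by
    refine log_ratio (u := g) (by norm_num) (c := 1 / 2) (C := 1) (by norm_num) one_pos ?_
    filter_upwards [eventually_ge_atTop 1] with j hj
    obtain ⟨h1, h2⟩ := hgb j
    have h1' : (j : ℝ) ≤ 2 * g j := by exact_mod_cast h1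
    have h2' : 2 * (g j : ℝ) ≤ j + 1 := by exact_mod_cast h2
    have h3 : (1 : ℝ) ≤ j := by exact_mod_cast hj
    rw [pow_one]
    constructor <;> linarith
  have hL : Tendsto (fun j : ℕ => Real.log (j ^ 2 / 4 : ℕ) / (2 * Real.log (g j))) atTop (𝓝 1) := by
    have h1 := hlog1.div hlog2 one_ne_zero
    rw [div_one] at h1
    refine h1.congr' ?_
    filter_upwards [log_tend.eventually_gt_atTop 0] with j hj
    have h2 : Real.log (j : ℝ) ≠ 0 := ne_of_gt hj
    show Real.log (j ^ 2 / 4 : ℕ) / (((2 : ℕ) : ℝ) * Real.log j) / (Real.log (g j) / (((1 : ℕ) : ℝ) * Real.log j)) = _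
    rw [Nat.cast_one, one_mul, Nat.cast_ofNat]
    rcases eq_or_ne (Real.log (g j)) 0 with h3 | h3
    · rw [h3]; simp
    · field_simp
  have hEg : ∀ j, E j = (g j : ℝ) / (2 * Real.log (g j)) := fun j => by rw [hg]; rfl
  have hE : Asy E (wt (fun j => j ^ 2 / 4) (fun j => (j + 1) ^ 2 / 4) 1) 1 := by
    have h2 := asy_of hw (r := 1) (σ := 1) (fun j : ℕ => (g j : ℝ)) (fun j : ℕ => 2 * Real.log (g j)) (by
      refine tendsto_const_nhds.congr' ?_
      filter_upwards [eventually_ge_atTop 1] with j hj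
      rw [hlen]
      have h3 : (g j : ℝ) ≠ 0 := by
        have := (hgb j).1
        exact_mod_cast (by omega : g j ≠ 0)
      rw [div_self h3]) hL
    have e : (fun j : ℕ => (1 : ℝ) * ((g j : ℝ) / (2 * Real.log (g j)) ^ 1)) = E := by
      funext j
      rw [hEg, one_mul, pow_one]
    rwa [e] at h2
  obtain ⟨h1, h2, h3⟩ := hw.elem hs hE
  have eW : (fun j : ℕ => Ico (j ^ 2 / 4) ((j + 1) ^ 2 / 4)) = W := by
    funext j
    exact (W_eq j).symm
  have eQ : (fun j : ℕ => els (Ico (j ^ 2 / 4) ((j + 1) ^ 2 / 4))) = Q := by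
    funext j S
    unfold els Q
    rw [W_eq]
  rw [eW, eQ] at h1 h2 h3
  refine ⟨?_, h2, h3⟩
  have h5 := cost_explicit (Ex := E) (a := 1) (r := 1) (c := 1 / 4) (C := 1) (by norm_num) one_pos (by
    filter_upwards [eventually_ge_atTop 4, hlog2.eventually (Ioi_mem_nhds (show (1 / 2 : ℝ) < 1 by norm_num)),
      log_tend.eventually_gt_atTop 0] with j hj hr hl
    obtain ⟨h1, h2⟩ := hgb j
    have h1' : (j : ℝ) ≤ 2 * g j := by exact_mod_cast h1
    have h2' : 2 * (g j : ℝ) ≤ j + 1 := by exact_mod_cast h2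
    have hj' : (4 : ℝ) ≤ j := by exact_mod_cast hj
    have hl' : 0 < Real.log (j : ℝ) := hl
    have hr' : 1 / 2 < Real.log (g j) / (((1 : ℕ) : ℝ) * Real.log j) := hr
    rw [Nat.cast_one, one_mul, lt_div_iff₀ hl'] at hr'
    have hg2 : Real.log (g j) ≤ Real.log j := Real.log_le_log (by linarith) (by linarith)
    rw [hEg, pow_one, pow_one]
    constructor
    · rw [mul_div_assoc', div_le_div_iff₀ hl' (by linarith)]
      have e1 : 1 / 4 * (j : ℝ) ≤ (g j : ℝ) / 2 := by linarith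
      have e2 : 2 * Real.log (g j) ≤ 2 * Real.log j := by linarith
      have := mul_le_mul e1 e2 (by linarith) (by linarith)
      linarith
    · rw [one_mul, div_le_div_iff₀ (by linarith) hl']
      have e1 : (g j : ℝ) ≤ j := by linarith
      have e2 : Real.log j ≤ 2 * Real.log (g j) := by linarith
      exact mul_le_mul e1 e2 hl'.le (by linarith))
  apply h1.congr (c := 1 / 4 / 2 ^ 1) (C := 1 * 2 ^ 1 * 2 ^ 1) (by positivity) (by positivity)
  filter_upwards [h5] with k hk M hM hM2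
  obtain ⟨h6, h7, h8⟩ := hk M hM hM2
  simp only [pow_one] at h6 h7 h8 ⊢
  exact ⟨h6, h7, h8⟩

end Pool.Agent.Q197.SP.Ra8f
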