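import Pool.Agent.Q197.CI.SumC

/-!
# Twin primes at the indices `k ^ d n` in Cramér's random model

`A` is Cramér's random model of the primes: the events `n ∈ A`, `n ≥ 3`, are independent with the probabilities
`1 / log n`; `el S m` is the `m`-th element `≥ 3` of `S`, the model of the `m`-th prime. For `s, d ≥ 1` let `k(n)` be the
least `k ≥ 1` for which `el A (k ^ d n) + s` is an element of `A` (the question: `s = 2`, `d = 1` in Q1 (a) and Q2,
`d = 2` in Q1 (b)). We find the number of `n ≤ N` with `k(n) > y(n)` for `y(n) = t log n`, for `y(n) = c log² n` and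
for `y(n) = log² n + b log n log log n`: the largest values of `k(n)` are `log² n + (2 d + 2 + o(1)) log n log log n`.
-/

set_option autoImplicit false

namespace Pool.Agent.Q197.SP.Rbe9

open MeasureTheory Filter Pool.Agent.Q120.MF Pool.Agent.Q197.CI
open scoped Topology

/-- Q1 (a), Q1 (b) and Q2 for the number `n`, for the set `S` in place of the primes. -/
def Question (S : Set ℕ) (n : ℕ) : Prop :=
  (∃ k, 1 ≤ k ∧ k ≤ n ∧ el S (k * n) + 2 ∈ S) ∧ (∃ k, 1 ≤ k ∧ k ≤ n ∧ el S (k ^ 2 * n) + 2 ∈ S) ∧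
    ∃ k : ℕ, 1 ≤ k ∧ (k : ℝ) < 3 * Real.sqrt n + 6 ∧ el S (k * n) + 2 ∈ S

theorem yb_le (b : ℝ) : ∀ᶠ n : ℕ in atTop, yb b n ≤ Real.sqrt n := by
  filter_upwards [polylog_le (1 + |b|) 1 (show (0 : ℝ) < 1 / 2 by norm_num), hl.eventually_ge_atTop 1,
    lll.eventually_ge_atTop 0] with n h1 h2 h3
  rw [← Real.sqrt_eq_rpow, pow_one] at h1
  refine le_trans ?_ h1
  unfold yb
  have h4 : Real.log (Real.log n) ≤ Real.log (n : ℝ) := (Real.log_le_sub_one_of_pos (by linarith)).trans (by linarith)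
  have h5 : b * (Real.log n * Real.log (Real.log n)) ≤ |b| * (Real.log n * Real.log n) :=
    mul_le_mul (le_abs_self b) (mul_le_mul_of_nonneg_left h4 (by linarith)) (by positivity) (abs_nonneg b)
  nlinarith

theorem all_parts :
    (∃ (Ω : Type) (_ : MeasurableSpace Ω) (μ : Measure Ω) (A : Ω → Set ℕ), IsProbabilityMeasure μ ∧ IsCramer μ A) ∧
    ∀ (Ω : Type) [MeasurableSpace Ω] (μ : Measure Ω) [IsProbabilityMeasure μ] (A : Ω → Set ℕ), IsCramer μ A →
      -- the question, for all large `n`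
      (∀ᵐ ω ∂μ, (A ω).Infinite ∧ ∀ᶠ n : ℕ in atTop, Question (A ω) n) ∧
      ∀ s d : ℕ, 1 ≤ s → 1 ≤ d →
        -- the largest values
        (∀ b : ℝ, 2 * d + 2 < b → ∀ᵐ ω ∂μ, ∀ᶠ n : ℕ in atTop,
          ¬ Fails (A ω) s d n (Real.log n ^ 2 + b * (Real.log n * Real.log (Real.log n)))) ∧
        (∀ᵐ ω ∂μ, Tendsto (fun N : ℕ =>
          count (A ω) s d (fun n => Real.log n ^ 2 + (2 * d + 2) * (Real.log n * Real.log (Real.log n))) N /
            Real.log (Real.log N)) atTop (𝓝 (Real.exp (-(d + 1 / 2))))) ∧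
        (∀ b : ℝ, b < 2 * d + 2 → ∀ᵐ ω ∂μ, Tendsto (fun N : ℕ =>
          count (A ω) s d (fun n => Real.log n ^ 2 + b * (Real.log n * Real.log (Real.log n))) N /
            Real.log N ^ (2 * d + 2 - b)) atTop (𝓝 (Real.exp (-(d + 1 / 2)) / (2 * d + 2 - b)))) ∧
        -- large values
        (∀ c : ℝ, 0 < c → c < 1 → ∀ᵐ ω ∂μ, Tendsto (fun N : ℕ =>
          count (A ω) s d (fun n => c * Real.log n ^ 2) N / ((N : ℝ) ^ (1 - c) * Real.log N ^ ((2 * d + 1) * c))) atTop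
            (𝓝 (Real.exp (c * (d * (Real.log c - 1) - 1 / 2)) / (1 - c)))) ∧
        -- typical values
        (∀ t : ℝ, 0 ≤ t → ∀ᵐ ω ∂μ, Tendsto (fun N : ℕ => count (A ω) s d (fun n => t * Real.log n) N / N) atTop
          (𝓝 (Real.exp (-t)))) := by
  refine ⟨⟨_, _, cramerMeasure, cramerSet, inferInstance, isCramer⟩, ?_⟩
  intro Ω _ μ _ A hA
  refine ⟨?_, fun s d hs hd => ⟨fun b hb => law_big hA hs hd hb, law_b0 hA hs hd, fun b hb => law_b hA hs hd hb,
    fun c hc hc1 => law_c hA hs hd hc hc1, fun t ht => law_t hA hs hd ht⟩⟩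
  filter_upwards [ae_infinite hA, law_big hA (s := 2) (d := 1) (b := 7) (by norm_num) le_rfl (by norm_num),
    law_big hA (s := 2) (d := 2) (b := 7) (by norm_num) (by norm_num) (by norm_num)] with ω hinf h1 h2
  refine ⟨hinf, ?_⟩
  filter_upwards [h1, h2, yb_le 7, eventually_ge_atTop 1] with n h3 h4 h5 h6
  have hn1 : (1 : ℝ) ≤ n := by exact_mod_cast h6
  have hsq : Real.sqrt n ≤ n := by
    rw [Real.sqrt_le_left (by linarith)]
    nlinarith
  unfold Fails at h3 h4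
  push Not at h3 h4
  obtain ⟨k, k1, k2, k3⟩ := h3
  obtain ⟨l, l1, l2, l3⟩ := h4
  rw [pow_one] at k3
  refine ⟨⟨k, k1, ?_, k3⟩, ⟨l, l1, ?_, l3⟩, ⟨k, k1, ?_, k3⟩⟩
  · have : (k : ℝ) ≤ n := by linarith
    exact_mod_cast this
  · have : (l : ℝ) ≤ n := by linarith
    exact_mod_cast this
  · have := Real.sqrt_nonneg (n : ℝ)
    linarith

end Pool.Agent.Q197.SP.Rbe9
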