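import Pool.Agent.Q197.CI.C971

/-!
# `2 k + 1` and `p_(k n) ^ 2 - 2` in Cramér's random model

`A` is Cramér's random model of the primes: the events `n ∈ A`, `n ≥ 3`, are independent with the probabilities
`1 / log n`; `el S m` is the `m`-th element `≥ 3` of `S`, the model of the `m`-th prime. For `n ≥ 1` let `k(n)` be the
least `k ≥ 1` such that `2 k + 1` and `el A (k n) ^ 2 - 2` are elements of `A`. Almost surely `k(n)` exists for all
large `n`, its upper limit relative to `log² n log log n` is `4`, the number of `n ≤ N` with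
`k(n) > c log² n log log n` is `N ^ (1 - c / 4 + o(1))`, and the distribution function of the typical values and the
number of all solutions `k ≤ n` for every large `n` are determined.
-/

set_option autoImplicit false

namespace Pool.Agent.Q197.SP.Rc97

open MeasureTheory Filter Pool.Agent.Q120.MF Pool.Agent.Q197.CI
open scoped Topology

/-- `k` is a solution for `n`, with `S` in place of the set of the primes. -/
def Sol (S : Set ℕ) (n k : ℕ) : Prop := 2 * k + 1 ∈ S ∧ el S (k * n) ^ 2 - 2 ∈ S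

theorem all_parts :
    (∃ (Ω : Type) (_ : MeasurableSpace Ω) (μ : Measure Ω) (A : Ω → Set ℕ), IsProbabilityMeasure μ ∧ IsCramer μ A) ∧
    ∀ (Ω : Type) [MeasurableSpace Ω] (μ : Measure Ω) [IsProbabilityMeasure μ] (A : Ω → Set ℕ), IsCramer μ A →
      -- the question, for all large `n`
      (∀ᵐ ω ∂μ, (A ω).Infinite ∧ ∀ᶠ n : ℕ in atTop, ∃ k : ℕ, 1 ≤ k ∧ k ≤ n ∧ Sol (A ω) n k) ∧
      -- the least solution
      (∀ c : ℝ, 4 < c → ∀ᵐ ω ∂μ, ∀ᶠ n : ℕ in atTop,
        ∃ k : ℕ, 1 ≤ k ∧ (k : ℝ) ≤ c * (Real.log n ^ 2 * Real.log (Real.log n)) ∧ Sol (A ω) n k) ∧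
      (∀ c : ℝ, 0 < c → c < 4 → ∀ᵐ ω ∂μ, Tendsto (fun N : ℕ =>
        Real.log (cntP (fun n => NoSol (Sol (A ω)) n (c * (Real.log n ^ 2 * Real.log (Real.log n)))) N) / Real.log N)
          atTop (𝓝 (1 - c / 4))) ∧
      -- typical values
      (∀ t : ℝ, 0 < t → ∀ᵐ ω ∂μ, Tendsto (fun N : ℕ =>
        cntP (fun n => NoSol (Sol (A ω)) n (t * (Real.log n * Real.log (Real.log n)))) N / N) atTop
          (𝓝 (Real.exp (-(t / 2))))) ∧
      -- the number of the solutions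
      ∀ᵐ ω ∂μ, Tendsto (fun n : ℕ => ({k : ℕ | 1 ≤ k ∧ k ≤ n ∧ Sol (A ω) n k}.ncard : ℝ) * Real.log n ^ 2 / n) atTop
        (𝓝 (1 / 4)) := by
  refine ⟨⟨_, _, cramerMeasure, cramerSet, inferInstance, isCramer⟩, ?_⟩
  intro Ω _ μ _ A hA
  have hSol : ∀ᵐ ω ∂μ, ∀ M : ℕ, ∀ᶠ n : ℕ in atTop, ∀ j : ℕ, 1 ≤ j → (j : ℝ) ≤ Real.log n ^ M →
      (Sol (A ω) n j ↔ (WP P971 j (A ω) ∧ ¬ FlI (fun n j => j * n) G2 n j (A ω))) := by
    filter_upwards [ae_flI hA idx_mul G2, ae_infinite hA] with ω h1 hinf M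
    filter_upwards [h1 M] with n h2 j hj1 hj2
    have h3 := el_ge3 hinf (j * n)
    rw [h2 j hj1 hj2, wp971, g2_of_ge (by omega)]
    rfl
  obtain ⟨h1, h2, h3⟩ := row971.final hA 1 (law971 hA) (Eventually.of_forall (fun _ => Eventually.of_forall (fun _ => trivial)))
    Sol hSol
  have e1 : (2 : ℝ) * (((1 : ℕ) : ℝ) + 1) ^ 1 = 4 := by norm_num
  have e2 : (2 : ℝ) * ((1 : ℕ) : ℝ) ^ 1 = 2 := by norm_num
  have hc4 : ∀ c : ℝ, 4 < c → ∀ᵐ ω ∂μ, ∀ᶠ n : ℕ in atTop,
      ∃ k : ℕ, 1 ≤ k ∧ (k : ℝ) ≤ c * (Real.log n ^ 2 * Real.log (Real.log n)) ∧ Sol (A ω) n k := by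
    intro c hc
    filter_upwards [h1 c (by rw [e1]; exact hc)] with ω h4
    filter_upwards [h4] with n h5
    unfold NoSol at h5
    push Not at h5
    obtain ⟨k, k1, k2, k3⟩ := h5
    exact ⟨k, k1, by rw [pow_one] at k2; exact k2, k3⟩
  refine ⟨?_, hc4, fun c hc0 hc => ?_, fun t ht => ?_, ?_⟩
  · filter_upwards [ae_infinite hA, hc4 5 (by norm_num)] with ω hinf h4
    refine ⟨hinf, ?_⟩
    filter_upwards [h4, scale_le 5 2 1] with n h5 h6
    obtain ⟨k, k1, k2, k3⟩ := h5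
    rw [pow_one] at h6
    exact ⟨k, k1, by exact_mod_cast k2.trans h6, k3⟩
  · have h4 := h2 c hc0 (by rw [e1]; exact hc)
    rw [e1] at h4
    simp only [pow_one] at h4
    exact h4
  · have h4 := h3 t ht
    rw [e2] at h4
    simp only [pow_one] at h4
    exact h4
  · exact total971 hA

end Pool.Agent.Q197.SP.Rc97
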