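import Pool.Agent.Q197.CI.Cea8

/-!
# Sums of two indices of twin-prime type in Cramér's random model

`A` is Cramér's random model of the primes: the events `n ∈ A`, `n ≥ 3`, are independent with the probabilities
`1 / log n`; `el S m` is the `m`-th element `≥ 3` of `S`, the model of the `m`-th prime. Almost surely every large `n`
is `k + m` with `6 k - 1, 6 k + 1 ∈ A` and `el A m + 2 ∈ A`. The least such `k` and the least such `m` have different
orders; for both we determine the upper limit, the exponents of the numbers of the exceptional `n` and the typical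
values.
-/

set_option autoImplicit false

namespace Pool.Agent.Q197.SP.Rea8

open MeasureTheory Filter Pool.Agent.Q120.MF Pool.Agent.Q197.CI
open scoped Topology

/-- `n = k + (n - k)` is a decomposition as in the question, with `S` in place of the set of the primes. -/
def SolK (S : Set ℕ) (n k : ℕ) : Prop := (6 * k - 1 ∈ S ∧ 6 * k + 1 ∈ S) ∧ el S (n - k) + 2 ∈ S

/-- `n = (n - m) + m` is a decomposition as in the question, with `S` in place of the set of the primes. -/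
def SolM (S : Set ℕ) (n m : ℕ) : Prop := (6 * (n - m) - 1 ∈ S ∧ 6 * (n - m) + 1 ∈ S) ∧ el S m + 2 ∈ S

theorem all_parts :
    (∃ (Ω : Type) (_ : MeasurableSpace Ω) (μ : Measure Ω) (A : Ω → Set ℕ), IsProbabilityMeasure μ ∧ IsCramer μ A) ∧
    ∀ (Ω : Type) [MeasurableSpace Ω] (μ : Measure Ω) [IsProbabilityMeasure μ] (A : Ω → Set ℕ), IsCramer μ A →
      -- the question, for all large `n`
      (∀ᵐ ω ∂μ, (A ω).Infinite ∧ ∀ᶠ n : ℕ in atTop, ∃ k m : ℕ, 1 ≤ k ∧ 1 ≤ m ∧ n = k + m ∧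
        6 * k - 1 ∈ A ω ∧ 6 * k + 1 ∈ A ω ∧ el (A ω) m + 2 ∈ A ω) ∧
      -- the least `k`
      (∀ c : ℝ, 4 < c → ∀ᵐ ω ∂μ, ∀ᶠ n : ℕ in atTop,
        ∃ k : ℕ, 1 ≤ k ∧ (k : ℝ) ≤ c * (Real.log n ^ 2 * Real.log (Real.log n) ^ 2) ∧ SolK (A ω) n k) ∧
      (∀ c : ℝ, 0 < c → c < 4 → ∀ᵐ ω ∂μ, Tendsto (fun N : ℕ =>
        Real.log (cntP (fun n => NoSol (SolK (A ω)) n (c * (Real.log n ^ 2 * Real.log (Real.log n) ^ 2))) N) /
          Real.log N) atTop (𝓝 (1 - c / 4))) ∧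
      (∀ t : ℝ, 0 < t → ∀ᵐ ω ∂μ, Tendsto (fun N : ℕ =>
        cntP (fun n => NoSol (SolK (A ω)) n (t * (Real.log n * Real.log (Real.log n) ^ 2))) N / N) atTop
          (𝓝 (Real.exp (-t)))) ∧
      -- the least `m`
      (∀ c : ℝ, 3 < c → ∀ᵐ ω ∂μ, ∀ᶠ n : ℕ in atTop,
        ∃ m : ℕ, 1 ≤ m ∧ (m : ℝ) ≤ c * (Real.log n ^ 3 * Real.log (Real.log n)) ∧ SolM (A ω) n m) ∧
      (∀ c : ℝ, 0 < c → c < 3 → ∀ᵐ ω ∂μ, Tendsto (fun N : ℕ =>
        Real.log (cntP (fun n => NoSol (SolM (A ω)) n (c * (Real.log n ^ 3 * Real.log (Real.log n)))) N) /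
          Real.log N) atTop (𝓝 (1 - c / 3))) ∧
      (∀ t : ℝ, 0 < t → ∀ᵐ ω ∂μ, Tendsto (fun N : ℕ =>
        cntP (fun n => NoSol (SolM (A ω)) n (t * (Real.log n ^ 2 * Real.log (Real.log n)))) N / N) atTop
          (𝓝 (Real.exp (-(t / 2))))) := by
  refine ⟨⟨_, _, cramerMeasure, cramerSet, inferInstance, isCramer⟩, ?_⟩
  intro Ω _ μ _ A hA
  -- the least `k`
  have hSolK : ∀ᵐ ω ∂μ, ∀ M : ℕ, ∀ᶠ n : ℕ in atTop, ∀ j : ℕ, 1 ≤ j → (j : ℝ) ≤ Real.log n ^ M →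
      (SolK (A ω) n j ↔ (WP P6 j (A ω) ∧ ¬ FlI (fun n j => n - j) (fun a => a + 2) n j (A ω))) := by
    filter_upwards [ae_flI hA idx_sub (fun a => a + 2)] with ω h1 M
    filter_upwards [h1 M] with n h2 j hj1 hj2
    rw [h2 j hj1 hj2, wp6 hj1]
    rfl
  obtain ⟨h1, h2, h3⟩ := row6.final hA 2 (law6 hA) (Eventually.of_forall (fun _ => Eventually.of_forall
    (fun _ => trivial))) SolK hSolK
  have e1 : (1 : ℝ) * (((1 : ℕ) : ℝ) + 1) ^ 2 = 4 := by norm_num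
  have e2 : (1 : ℝ) * ((1 : ℕ) : ℝ) ^ 2 = 1 := by norm_num
  -- the least `m`
  have hSolM : ∀ᵐ ω ∂μ, ∀ M : ℕ, ∀ᶠ n : ℕ in atTop, ∀ j : ℕ, 1 ≤ j → (j : ℝ) ≤ Real.log n ^ M →
      (SolM (A ω) n j ↔ (WP P7 j (A ω) ∧ ¬ FlF P2 n j (A ω))) := by
    filter_upwards [ae_infinite hA] with ω hinf M
    filter_upwards with n j hj1 _
    have hw : WP P7 j (A ω) ↔ el (A ω) j + 2 ∈ A ω := by
      unfold WP
      constructor
      · rintro ⟨a, k1, k2⟩
        rw [((p7_iff hinf hj1 a).1 k1).2] at k2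
        exact k2
      · exact fun k => ⟨_, (p7_iff hinf hj1 _).2 ⟨trivial, rfl⟩, k⟩
    rw [hw]
    unfold SolM FlF P2
    simp only [Finset.mem_insert, Finset.mem_singleton, forall_eq_or_imp, forall_eq, not_not]
    tauto
  obtain ⟨g1, g2, g3⟩ := row7.final hA 1 (law7 hA) (v7 hA) SolM hSolM
  have f1 : (1 : ℝ) * (((2 : ℕ) : ℝ) + 1) ^ 1 = 3 := by norm_num
  have f2 : (1 : ℝ) * ((2 : ℕ) : ℝ) ^ 1 = 2 := by norm_num
  have hcK : ∀ c : ℝ, 4 < c → ∀ᵐ ω ∂μ, ∀ᶠ n : ℕ in atTop,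
      ∃ k : ℕ, 1 ≤ k ∧ (k : ℝ) ≤ c * (Real.log n ^ 2 * Real.log (Real.log n) ^ 2) ∧ SolK (A ω) n k := by
    intro c hc
    filter_upwards [h1 c (by rw [e1]; exact hc)] with ω h4
    filter_upwards [h4] with n h5
    unfold NoSol at h5
    push Not at h5
    obtain ⟨k, k1, k2, k3⟩ := h5
    exact ⟨k, k1, k2, k3⟩
  refine ⟨?_, hcK, fun c hc0 hc => ?_, fun t ht => ?_, fun c hc => ?_, fun c hc0 hc => ?_, fun t ht => ?_⟩
  · filter_upwards [ae_infinite hA, hcK 5 (by norm_num)] with ω hinf h4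
    refine ⟨hinf, ?_⟩
    filter_upwards [h4, scale_le 10 2 2, eventually_ge_atTop 2] with n h5 h6 h7
    obtain ⟨k, k1, k2, k3, k4⟩ := h5
    have h8 : 2 * k ≤ n := by
      have : 2 * (k : ℝ) ≤ n := by linarith
      exact_mod_cast this
    exact ⟨k, n - k, k1, by omega, by omega, k3.1, k3.2, k4⟩
  · have h4 := h2 c hc0 (by rw [e1]; exact hc)
    rw [e1] at h4
    exact h4
  · have h4 := h3 t ht
    rw [e2] at h4
    simp only [pow_one, div_one] at h4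
    exact h4
  · filter_upwards [g1 c (by rw [f1]; exact hc)] with ω h4
    filter_upwards [h4] with n h5
    unfold NoSol at h5
    push Not at h5
    obtain ⟨k, k1, k2, k3⟩ := h5
    exact ⟨k, k1, by rw [pow_one] at k2; exact k2, k3⟩
  · have h4 := g2 c hc0 (by rw [f1]; exact hc)
    rw [f1] at h4
    simp only [pow_one] at h4
    exact h4
  · have h4 := g3 t ht
    rw [f2] at h4
    simp only [pow_one] at h4
    exact h4

end Pool.Agent.Q197.SP.Rea8
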